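import Mathlib

/-!
# Clock auctions for downward-closed constraints have no constant approximation factor

`MP_9cf523_lc`.  Definitions and exact statements of the steps.

A buyer is in a *state* `s : Fin (K+1)`: `0` means that she has dropped out, `s ≥ 1` means that she is
active and that her value is known to be at least `u s` (`s` is the level of her price).
`Q s` is the probability that the value is at least `u s`.
-/

set_option autoImplicit false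

open Finset

namespace Pool.Agent.K3h60.CA

/-! ### Clock auctions -/

/-- A deterministic clock auction with set of buyers `N` and feasibility constraint `F`, before the
requirement that it stops.  A history is the list of the active sets, the latest first;
`price h` are the prices offered in the round after the history `h`; they are monotone. -/
structure PreAuction (N : Type) (F : Set (Finset N)) where
  price : List (Finset N) → N → ℝ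
  stop : List (Finset N) → Prop
  mono : ∀ (h : List (Finset N)) (A : Finset N) (i : N), price h i ≤ price (A :: h) i
  feas : ∀ (h : List (Finset N)) (A : Finset N), stop (A :: h) → A ∈ F

open Classical in
/-- The history after `t` rounds if the values are `v`: a buyer with value below the price drops
out. -/
noncomputable def PreAuction.hist {N : Type} [Fintype N] {F : Set (Finset N)}
    (𝒜 : PreAuction N F) (v : N → ℝ) : ℕ → List (Finset N)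
  | 0 => [univ]
  | t + 1 => (((𝒜.hist v t).headD ∅).filter fun i => 𝒜.price (𝒜.hist v t) i ≤ v i) :: 𝒜.hist v t

/-- A deterministic clock auction: it stops for all values. -/
structure ClockAuction (N : Type) [Fintype N] (F : Set (Finset N)) extends PreAuction N F where
  term : ∀ v : N → ℝ, (∀ i, 0 ≤ v i) → ∃ t, stop (toPreAuction.hist v t)

/-- The welfare: the auction stops at the first possible time, and serves the active buyers. -/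
noncomputable def ClockAuction.welfare {N : Type} [Fintype N] {F : Set (Finset N)}
    (𝒜 : ClockAuction N F) (v : N → ℝ) : ℝ :=
  ∑ i ∈ (𝒜.hist v (sInf {t | 𝒜.stop (𝒜.hist v t)})).headD ∅, v i

/-- The optimal welfare. -/
noncomputable def opt {N : Type} (F : Set (Finset N)) (v : N → ℝ) : ℝ :=
  sSup ((fun S => ∑ i ∈ S, v i) '' F)

/-- Q1 has a negative answer. -/
def S_MAIN1 : Prop := ∀ c : ℝ, ∃ (N : Type) (_ : Fintype N) (_ : DecidableEq N)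
  (F : Set (Finset N)),
  (∅ ∈ F ∧ ∀ S ∈ F, ∀ T ⊆ S, T ∈ F) ∧
  ∃ (K : ℕ) (p u : Fin K → ℝ), (∀ s, 0 ≤ p s) ∧ ∑ s, p s = 1 ∧ (∀ s, 0 ≤ u s) ∧
    ∀ 𝒜 : ClockAuction N F,
      c * ∑ ω : N → Fin K, (∏ i, p (ω i)) * 𝒜.welfare (fun i => u (ω i)) <
        ∑ ω : N → Fin K, (∏ i, p (ω i)) * opt F (fun i => u (ω i))

/-- Q2 has a negative answer. -/
def S_MAIN2 : Prop := ∀ c : ℝ, ∃ (N : Type) (_ : Fintype N) (F : Set (Finset N)),
  (∅ ∈ F ∧ ∀ S ∈ F, ∀ T ⊆ S, T ∈ F) ∧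
    ∀ (Ω : Type) [MeasurableSpace Ω] (P : MeasureTheory.Measure Ω)
      [MeasureTheory.IsProbabilityMeasure P] (𝒜 : Ω → ClockAuction N F),
      (∀ v : N → ℝ, (∀ i, 0 ≤ v i) → Measurable fun ω => (𝒜 ω).welfare v) →
      ∃ v : N → ℝ, (∀ i, 0 ≤ v i) ∧ c * ∫ ω, (𝒜 ω).welfare v ∂P < opt F v

/-! ### Potentials -/

/-- The probability of level `s`. -/
noncomputable def prob (Q : ℕ → ℝ) (K s : ℕ) : ℝ :=
  if s = 0 then 0 else Q s - if s = K then 0 else Q (s + 1)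

/-- `E[v | v ≥ u s]`. -/
noncomputable def rate (Q u : ℕ → ℝ) (K s : ℕ) : ℝ :=
  if s = 0 then 0 else (∑ i ∈ Icc s K, u i * prob Q K i) / Q s

/-- The normalized mass of a buyer in state `s`. -/
noncomputable def mass (Q : ℕ → ℝ) (s : ℕ) : ℝ := if s = 0 then 0 else 1 / Q s

/-- The function `f` of the states is superharmonic: raising the level of an active buyer from
`st y` to `j` (she stays with probability `Q j / Q (st y)`) does not increase its expectation, and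
neither does removing a buyer. -/
def SH (K : ℕ) (Q : ℕ → ℝ) {N : Type} [DecidableEq N] (f : (N → Fin (K + 1)) → ℝ) : Prop :=
  (∀ (st : N → Fin (K + 1)) (y : N) (j : Fin (K + 1)), 0 < st y → st y < j →
    Q j / Q (st y) * f (Function.update st y j) +
      (1 - Q j / Q (st y)) * f (Function.update st y 0) ≤ f st) ∧
  ∀ (st : N → Fin (K + 1)) (y : N), f (Function.update st y 0) ≤ f st

/-- product weights -/
noncomputable def wt {N : Type} [Fintype N] {L : ℕ} (π : Fin L → ℝ) (st : N → Fin L) : ℝ :=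
  ∏ y, π (st y)

/-- The instances with `K` levels. -/
structure Good (K : ℕ) (δ : ℝ) (Q u : ℕ → ℝ) (N : Type) [Fintype N] [DecidableEq N]
    (F : Set (Finset N)) (U B : ℝ) (Ψ : (N → Fin (K + 1)) → ℝ) : Prop where
  K1 : 1 ≤ K
  δ0 : 0 ≤ δ
  Q1 : Q 1 = 1
  Qpos : ∀ s, 1 ≤ s → s ≤ K → 0 < Q s
  Qhalf : ∀ s, 1 ≤ s → s < K → Q (s + 1) ≤ Q s / 2
  u0 : u 0 = 0
  u1 : 0 < u 1
  umono : ∀ s, 1 ≤ s → s < K → u s ≤ u (s + 1)
  U0 : 0 < U
  B0 : 0 < B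
  Fne : F.Nonempty
  pay : ∀ st, ∀ S ∈ F, ∑ y ∈ S, rate Q u K (st y) ≤ U * Ψ st
  sup : SH K Q Ψ
  bd : ∀ st, 0 ≤ Ψ st ∧ Ψ st ≤ B
  H : ∀ π : Fin (K + 1) → ℝ, (∀ s, 0 ≤ π s) → ∑ s, π s = 1 →
    ∑ st : N → Fin (K + 1), wt π st * Ψ st ≤ (1 + δ) * ∑ s, π s * mass Q s + δ
  O : ∀ μ : Fin (K + 1) → ℝ, (∀ s, 0 ≤ μ s) → μ 0 = 0 → ∑ s, μ s = 1 →
    (∀ s : Fin (K + 1), 2 ≤ (s : ℕ) → Q s / 2 * ∑ i ∈ Finset.Iic s, μ i ≤ μ s) →
    U * (39 / 100 * ((K : ℝ) - 1) - δ) ≤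
      ∑ ω : N → Fin (K + 1), wt μ ω * opt F (fun y => u (ω y))

/-- **AUC**: a potential bounds the expected welfare of clock auctions. -/
def S_AUC : Prop := ∀ (K : ℕ) (Q u : ℕ → ℝ) (N : Type) [Fintype N] [DecidableEq N]
  (F : Set (Finset N)) (V : (N → Fin (K + 1)) → ℝ),
  1 ≤ K → Q 1 = 1 → (∀ s, 1 ≤ s → s ≤ K → 0 < Q s) → (∀ s, 1 ≤ s → s < K → Q (s + 1) ≤ Q s) →
  u 0 = 0 → 0 ≤ u 1 → (∀ s, 1 ≤ s → s < K → u s ≤ u (s + 1)) →
  (∀ st, ∀ S ∈ F, ∑ y ∈ S, rate Q u K (st y) ≤ V st) → SH K Q V →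
  ∀ 𝒜 : ClockAuction N {S | ∃ T ∈ F, S ⊆ T},
    ∑ ω : N → Fin (K + 1), (∏ y, prob Q K (ω y)) * 𝒜.welfare (fun y => u (ω y)) ≤
      V (fun _ => 1)

/-- **BASE** -/
def S_BASE : Prop := ∀ δ : ℝ, 0 ≤ δ → ∃ (Q u : ℕ → ℝ) (N : Type) (_ : Fintype N)
  (_ : DecidableEq N) (F : Set (Finset N)) (U B : ℝ) (Ψ : (N → Fin (1 + 1)) → ℝ),
  Good 1 δ Q u N F U B Ψ

/-- **STEP** -/
def S_STEP : Prop := ∀ (K : ℕ) (δ δ' : ℝ) (Q u : ℕ → ℝ) (N : Type) [Fintype N] [DecidableEq N]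
  (F : Set (Finset N)) (U B : ℝ) (Ψ : (N → Fin (K + 1)) → ℝ), Good K δ Q u N F U B Ψ →
  δ < δ' → δ' ≤ 1 → ∃ (Q' u' : ℕ → ℝ) (N' : Type) (_ : Fintype N') (_ : DecidableEq N')
  (F' : Set (Finset N')) (U' B' : ℝ) (Ψ' : (N' → Fin (K + 1 + 1)) → ℝ),
  Good (K + 1) δ' Q' u' N' F' U' B' Ψ'

/-- **FIN**: assembly -/
def S_FIN : Prop := S_AUC → S_BASE → S_STEP → S_MAIN1 ∧ S_MAIN2

/-! ### General lemmas for the step -/

/-- average over the `m` copies -/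
noncomputable def PsiJ {K : ℕ} {N : Type} (Ψ : (N → Fin (K + 1)) → ℝ) (m : ℕ)
    (τ : Fin m × N → Fin (K + 1)) : ℝ := (∑ i, Ψ (fun z => τ (i, z))) / m

open Classical in
/-- **HOEF**: exponential concentration of the average over independent copies. -/
def S_HOEF : Prop := ∀ (K : ℕ) (N : Type) [Fintype N] (Ψ : (N → Fin (K + 1)) → ℝ) (B μ ε : ℝ)
  (m : ℕ) (π : Fin (K + 1) → ℝ), 1 ≤ m → 0 < B → 0 < ε → 0 ≤ μ → (∀ st, 0 ≤ Ψ st ∧ Ψ st ≤ B) →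
  (∀ s, 0 ≤ π s) → ∑ s, π s = 1 → ∑ st : N → Fin (K + 1), wt π st * Ψ st ≤ μ →
  ∑ τ : Fin m × N → Fin (K + 1), wt π τ * (if μ + ε < PsiJ Ψ m τ then 1 else 0) ≤
    Real.exp (-(m * ε ^ 2 / (4 * B ^ 2)))

open Classical in
/-- **LOWT**: lower tail of a sum of independent bounded variables. -/
def S_LOWT : Prop := ∀ (L : ℕ) (Y : Type) [Fintype Y] [Nonempty Y] (X : Fin L → ℝ) (c t : ℝ)
  (π : Fin L → ℝ), 0 < c → 0 < t → (∀ s, 0 ≤ X s ∧ X s ≤ c) →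
  (∀ s, 0 ≤ π s) → ∑ s, π s = 1 →
  ∑ st : Y → Fin L, wt π st *
    (if (∑ y, X (st y)) / Fintype.card Y < ∑ s, π s * X s - t then 1 else 0) ≤
    Real.exp (-(Fintype.card Y * t ^ 2 / (2 * c ^ 2)))

open Classical in
/-- **UNI**: a uniformly random function, composed with `t`. -/
def S_UNI : Prop := ∀ (L : ℕ) (Y Z : Type) [Fintype Y] [Fintype Z] [Nonempty Y] [DecidableEq Z]
  (t : Y → Fin L) (f : (Z → Fin L) → ℝ),
  ∑ g : Z → Y, f (fun z => t (g z)) = (Fintype.card Y : ℝ) ^ Fintype.card Z *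
    ∑ τ : Z → Fin L,
      wt (fun s => ((univ.filter fun y => t y = s).card : ℝ) / Fintype.card Y) τ * f τ

/-- **MARG**: marginals of product weights. -/
def S_MARG : Prop := ∀ (L L' : ℕ) (Y Z : Type) [Fintype Y] [Fintype Z] [DecidableEq Y]
  [DecidableEq Z] (e : Z → Y) (d : Fin L' → Fin L) (π : Fin L' → ℝ) (f : (Z → Fin L) → ℝ),
  Function.Injective e → ∑ s, π s = 1 →
  ∑ st : Y → Fin L', wt π st * f (fun z => d (st (e z))) =
    ∑ τ : Z → Fin L, wt (fun s => ∑ s' ∈ univ.filter (fun s' => d s' = s), π s') τ * f τ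

open Classical in
/-- **EMB**: random embeddings. -/
def S_EMB : Prop := ∀ (L : ℕ) (Y Z A : Type) [Fintype Y] [Fintype Z] [Fintype A] [Nonempty Y]
  [DecidableEq Z] [DecidableEq Y] [DecidableEq A]
  (bad : (Y → Fin L) → (Z → Y) → Prop) (η : ℝ), 0 ≤ η →
  (∀ t, ((univ.filter fun g : Z → Y => bad t g).card : ℝ) ≤
    η * (Fintype.card Y : ℝ) ^ Fintype.card Z) →
  Fintype.card Z ^ 2 ≤ Fintype.card Y → 2 * L * Fintype.card A * η < 1 →
  ∃ e : A → Z → Y, (∀ α, Function.Injective (e α)) ∧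
    ∀ t, (univ.filter fun α => bad t (e α)).card ≤ Fintype.card Y

/-! ### The data of the step -/

/-- The instance with `K` levels, the parameters and the embeddings. -/
structure Dat where
  K : ℕ
  Q : ℕ → ℝ
  u : ℕ → ℝ
  N : Type
  fN : Fintype N
  dN : DecidableEq N
  F : Set (Finset N)
  U : ℝ
  B : ℝ
  δ : ℝ
  Ψ : (N → Fin (K + 1)) → ℝ
  a : ℕ
  b : ℕ
  m : ℕ
  ε : ℝ
  h : ℝ
  e : (Fin a → Fin b) → Fin m × N → Fin a × Fin b

namespace Dat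

attribute [instance] Dat.fN Dat.dN

variable (D : Dat)

/-- the new tail probabilities -/
noncomputable def Q' : ℕ → ℝ := Function.update D.Q (D.K + 1) (1 / D.b)

/-- the new unit -/
noncomputable def U' : ℝ := D.m * D.U

/-- the new values -/
noncomputable def u' : ℕ → ℝ := Function.update D.u (D.K + 1) (D.U' / D.a)

/-- the states of the new instance -/
abbrev St : Type := Fin D.a × Fin D.b → Fin (D.K + 1 + 1)

/-- the winners of the new level do not count in the copies -/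
def down (s : Fin (D.K + 1 + 1)) : Fin (D.K + 1) :=
  if h : s.val < D.K + 1 then ⟨s.val, h⟩ else 0

/-- the state of the copy of the option `α` -/
def cop (α : Fin D.a → Fin D.b) (st : D.St) : Fin D.m × D.N → Fin (D.K + 1) :=
  fun z => D.down (st (D.e α z))

/-- the buyers of the first kind of the option `α` -/
def root (α : Fin D.a → Fin D.b) : Finset (Fin D.a × Fin D.b) := univ.image fun i => (i, α i)

/-- the buyers of the option `α` -/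
def supp (α : Fin D.a → Fin D.b) : Finset (Fin D.a × Fin D.b) :=
  D.root α ∪ univ.image (D.e α)

open Classical in
/-- the new feasible sets -/
noncomputable def F' : Set (Finset (Fin D.a × Fin D.b)) :=
  {S | ∃ (α : Fin D.a → Fin D.b) (T : Fin D.m → Finset D.N), (∀ i, T i ∈ D.F) ∧
    S = D.root α ∪ (univ.filter fun z : Fin D.m × D.N => z.2 ∈ T z.1).image (D.e α)}

/-- the winners found in the option `α` -/
noncomputable def cc (α : Fin D.a → Fin D.b) (st : D.St) : ℝ :=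
  (((D.supp α).filter fun y => st y = Fin.last (D.K + 1)).card : ℝ) / D.a

/-- the mass -/
noncomputable def Phi (st : D.St) : ℝ := (∑ y, mass D.Q' (st y)) / (D.a * D.b)

/-- the mass of the lower levels -/
noncomputable def Philow (st : D.St) : ℝ := (∑ y, mass D.Q (D.down (st y))) / (D.a * D.b)

open Classical in
/-- the exceptional options -/
noncomputable def Exc (st : D.St) : Finset (Fin D.a → Fin D.b) :=
  univ.filter fun α => (1 + D.δ) * D.Philow st + D.δ + D.ε < PsiJ D.Ψ D.m (D.cop α st)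

/-- the rank -/
def rank (st : D.St) : ℕ := ∑ y, if st y = 0 then 0 else D.K + 2 - (st y).val

/-- the remaining variance -/
noncomputable def Rv (st : D.St) : ℝ :=
  (∑ y, mass D.Q' (st y) * (D.b - mass D.Q' (st y))) / (D.a * D.b) ^ 2

/-- the quadratic part of the potential -/
noncomputable def TT (φ : ℝ) (st : D.St) : ℝ := (max (D.Phi st - φ) 0) ^ 2 + D.Rv st

/-- exponential potential for the winners of the option `α` -/
noncomputable def PP (α : Fin D.a → Fin D.b) (st : D.St) : ℝ :=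
  ∏ y ∈ D.supp α, (1 + (Real.exp (2 * D.h / D.a) - 1) / D.b * mass D.Q' (st y))

/-- exponential potential for the copies in the option `α` -/
noncomputable def RR (α : Fin D.a → Fin D.b) (st : D.St) : ℝ :=
  ∏ i : Fin D.m, (1 + D.Ψ (fun z => D.cop α st (i, z)) / D.B *
    (Real.exp (2 * D.h * D.B / D.m) - 1))

/-- small constants -/
noncomputable def κ : ℝ := D.a * D.u D.K / (D.m * D.U) +
  (D.a + D.m * Fintype.card D.N) / (D.a * D.b * D.Q D.K)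

noncomputable def κ1 : ℝ := (D.a + D.m * Fintype.card D.N) * Real.exp (2 * D.h / D.a) /
  (2 * D.h * D.b * D.Q D.K)

noncomputable def κ2 : ℝ := 2 * D.h * D.B ^ 2 / D.m

/-- the target -/
noncomputable def Y (φ : ℝ) : ℝ := (1 + D.δ) * (φ + D.ε) + D.δ + 2 * D.ε

/-- the candidates for the potential -/
noncomputable def GG (φ : ℝ) (𝒯 : Finset (Fin D.a → Fin D.b)) (x : (Fin D.a → Fin D.b) → ℝ)
    (st : D.St) : ℝ :=
  D.Y φ + D.κ +
    1 / (2 * D.h) * Real.log (1 + D.a * D.b * D.rank st +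
      ∑ α ∈ 𝒯, Real.exp (-(2 * D.h * x α)) * D.PP α st) +
    1 / (2 * D.h) * Real.log (1 + D.a * D.b * D.rank st +
      ∑ α ∈ 𝒯, Real.exp (-(2 * D.h * (D.Y φ - x α))) * D.RR α st) +
    (1 / D.ε + D.B / D.ε ^ 2) * D.TT φ st

/-- the new potential -/
noncomputable def Psi' (st : D.St) : ℝ :=
  sInf ({D.Phi st + D.B + D.κ} ∪ {g | ∃ (φ : ℝ) (𝒯 : Finset (Fin D.a → Fin D.b))
    (x : (Fin D.a → Fin D.b) → ℝ), 0 ≤ φ ∧ D.Exc st ⊆ 𝒯 ∧ g = D.GG φ 𝒯 x st})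

/-- the properties of the data used in the step -/
structure Ok : Prop where
  good : Good D.K D.δ D.Q D.u D.N D.F D.U D.B D.Ψ
  δ1 : D.δ ≤ 1
  a1 : 1 ≤ D.a
  b1 : 1 ≤ D.b
  m1 : 1 ≤ D.m
  ε0 : 0 < D.ε
  h0 : 0 < D.h
  hb : 1 / (D.b : ℝ) ≤ D.Q D.K / 2
  hu : D.u D.K ≤ D.m * D.U / D.a
  inj : ∀ α, Function.Injective (D.e α)
  exc : ∀ st, (D.Exc st).card ≤ D.a * D.b
  hh : 2 * D.h * D.B / D.m ≤ 1
  hs : 1 / D.a + D.B / D.m + D.κ1 + D.κ2 ≤ D.ε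
  hr : Real.log (1 + D.a * D.b * ((D.K + 1) * (D.a * D.b))) ≤ D.ε * D.h

end Dat

/-- **PP** -/
def S_PP : Prop := ∀ D : Dat, D.Ok → ∀ α, SH (D.K + 1) D.Q' (D.PP α) ∧
  ∀ st, Real.exp (2 * D.h * D.cc α st) ≤ D.PP α st ∧
    D.PP α st ≤ Real.exp (2 * D.h * (D.cc α st + D.κ1))

/-- **RR** -/
def S_RR : Prop := ∀ D : Dat, D.Ok → ∀ α, SH (D.K + 1) D.Q' (D.RR α) ∧
  ∀ st, Real.exp (2 * D.h * PsiJ D.Ψ D.m (D.cop α st)) ≤ D.RR α st ∧
    D.RR α st ≤ Real.exp (2 * D.h * (PsiJ D.Ψ D.m (D.cop α st) + D.κ2))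

/-- **PHI** -/
def S_PHI : Prop := ∀ D : Dat, D.Ok → SH (D.K + 1) D.Q' D.Phi ∧
  (∀ φ, SH (D.K + 1) D.Q' (D.TT φ)) ∧
  ∀ st, 0 ≤ D.Phi st ∧ D.Phi st ≤ D.b ∧ 0 ≤ D.Rv st ∧ D.Rv st ≤ D.Phi st / D.a ∧
    0 ≤ D.Philow st ∧ ∀ α, D.cc α st + D.Philow st ≤ D.Phi st

/-- **ONE**: one step -/
def S_ONE : Prop := ∀ D : Dat, D.Ok → ∀ (st : D.St) (y : Fin D.a × Fin D.b)
  (s : Fin (D.K + 1 + 1)),
  (∀ α, D.cc α (Function.update st y s) ≤ D.cc α st + 1 / D.a ∧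
    PsiJ D.Ψ D.m (D.cop α (Function.update st y s)) ≤ PsiJ D.Ψ D.m (D.cop α st) + D.B / D.m) ∧
  D.rank st ≤ (D.K + 1) * (D.a * D.b) ∧
  (0 < st y → (s = 0 ∨ st y < s) → D.rank (Function.update st y s) + 1 ≤ D.rank st) ∧
  (st y = 0 → Function.update st y 0 = st)

/-- **PAY**: the payoff -/
def S_PAY : Prop := ∀ D : Dat, D.Ok → ∀ (st : D.St), ∀ S ∈ D.F', ∃ α,
  ∑ y ∈ S, rate D.Q' D.u' (D.K + 1) (st y) ≤
    D.U' * (D.cc α st + PsiJ D.Ψ D.m (D.cop α st) + D.κ)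

/-- **CORE**: the new potential -/
def S_CORE : Prop := S_PP → S_RR → S_PHI → S_ONE → S_PAY → ∀ D : Dat, D.Ok →
  SH (D.K + 1) D.Q' D.Psi' ∧
  (∀ st, ∀ S ∈ D.F', ∑ y ∈ S, rate D.Q' D.u' (D.K + 1) (st y) ≤ D.U' * D.Psi' st) ∧
  (∀ st, 0 ≤ D.Psi' st ∧ D.Psi' st ≤ D.b + D.B + D.κ) ∧
  ∀ st, D.Exc st = ∅ → D.Psi' st ≤ (1 + D.δ + (1 / D.ε + D.B / D.ε ^ 2) / D.a) * D.Phi st +
    D.δ + (D.δ + 4) * D.ε + D.κ

/-- **HH**: the property `H` of the new potential -/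
def S_HH : Prop := S_HOEF → S_LOWT → S_MARG → ∀ D : Dat, D.Ok → ∀ (Ψ' : D.St → ℝ) (A c₀ B' : ℝ),
  0 ≤ A → 0 ≤ c₀ → 0 ≤ B' → (∀ st, 0 ≤ Ψ' st ∧ Ψ' st ≤ B') →
  (∀ st, D.Exc st = ∅ → Ψ' st ≤ A * D.Phi st + c₀) →
  ∀ π : Fin (D.K + 1 + 1) → ℝ, (∀ s, 0 ≤ π s) → ∑ s, π s = 1 →
  ∑ st : D.St, wt π st * Ψ' st ≤ A * ∑ s, π s * mass D.Q' s + c₀ +
    B' * ((D.b : ℝ) ^ D.a * Real.exp (-(D.m * (D.ε / 2) ^ 2 / (4 * D.B ^ 2))) +
      Real.exp (-(D.a * D.b * (D.ε / 4) ^ 2 * D.Q D.K ^ 2 / 2)))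

/-- **OO**: the optimum of the new instance -/
def S_OO : Prop := S_MARG → ∀ D : Dat, D.Ok → ∀ μ : Fin (D.K + 1 + 1) → ℝ, (∀ s, 0 ≤ μ s) →
  μ 0 = 0 → ∑ s, μ s = 1 →
  (∀ s : Fin (D.K + 1 + 1), 2 ≤ (s : ℕ) → D.Q' s / 2 * ∑ i ∈ Finset.Iic s, μ i ≤ μ s) →
  D.U' * (39 / 100 * (((D.K + 1 : ℕ) : ℝ) - 1) - D.δ - D.a * D.u D.K / (D.m * D.U)) ≤
    ∑ ω : D.St, wt μ ω * opt D.F' (fun y => D.u' (ω y))

/-- **PAR**: choice of the parameters -/
def S_PAR : Prop := ∀ (K n : ℕ) (QK uK U B δ δ' : ℝ), 0 < QK → QK ≤ 1 → 0 < uK → 0 < U → 0 < B →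
  0 ≤ δ → δ < δ' → δ' ≤ 1 → ∃ (a b m : ℕ) (ε h κ κ1 κ2 : ℝ),
    1 ≤ a ∧ 1 ≤ b ∧ 1 ≤ m ∧ 0 < ε ∧ 0 < h ∧
    κ = a * uK / (m * U) + (a + m * n) / (a * b * QK) ∧
    κ1 = (a + m * n) * Real.exp (2 * h / a) / (2 * h * b * QK) ∧
    κ2 = 2 * h * B ^ 2 / m ∧
    1 / (b : ℝ) ≤ QK / 2 ∧ uK ≤ m * U / a ∧ (m * n) ^ 2 ≤ a * b ∧
    2 * ((K + 1 : ℕ) : ℝ) * (b : ℝ) ^ a * Real.exp (-(m * ε ^ 2 / (4 * B ^ 2))) < 1 ∧
    2 * h * B / m ≤ 1 ∧ 1 / a + B / m + κ1 + κ2 ≤ ε ∧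
    Real.log (1 + a * b * ((K + 1) * (a * b))) ≤ ε * h ∧
    (1 / ε + B / ε ^ 2) / a ≤ δ' - δ ∧
    δ + (δ + 4) * ε + κ + (b + B + κ) * ((b : ℝ) ^ a * Real.exp (-(m * (ε / 2) ^ 2 / (4 * B ^ 2))) +
      Real.exp (-(a * b * (ε / 4) ^ 2 * QK ^ 2 / 2))) ≤ δ' ∧
    δ + a * uK / (m * U) ≤ δ'

/-- the conclusion of `S_CORE` -/
def S_CORE' : Prop := ∀ D : Dat, D.Ok →
  SH (D.K + 1) D.Q' D.Psi' ∧
  (∀ st, ∀ S ∈ D.F', ∑ y ∈ S, rate D.Q' D.u' (D.K + 1) (st y) ≤ D.U' * D.Psi' st) ∧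
  (∀ st, 0 ≤ D.Psi' st ∧ D.Psi' st ≤ D.b + D.B + D.κ) ∧
  ∀ st, D.Exc st = ∅ → D.Psi' st ≤ (1 + D.δ + (1 / D.ε + D.B / D.ε ^ 2) / D.a) * D.Phi st +
    D.δ + (D.δ + 4) * D.ε + D.κ

/-- **ASM**: assembly of the step -/
def S_ASM : Prop := S_HOEF → S_LOWT → S_UNI → S_MARG → S_EMB → S_PAR → S_CORE' → S_HH → S_OO →
  S_STEP

end Pool.Agent.K3h60.CA
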